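import Mathlib

namespace Pool.Agent.Results.MP_2a0e18_al.Exists

open TensorProduct

/-- `P` is a two-sided group-like projection of the Hopf algebra `A`. -/
def TwoSided (k : Type) {A : Type} [Field k] [Ring A] [HopfAlgebra k A] (P : A) : Prop :=
  P ≠ 0 ∧ P * P = P ∧
  (Coalgebra.comul (R := k) P * (1 ⊗ₜ[k] P) = P ⊗ₜ[k] P ∧
    (1 ⊗ₜ[k] P) * Coalgebra.comul (R := k) P = P ⊗ₜ[k] P) ∧
  (Coalgebra.comul (R := k) P * (P ⊗ₜ[k] 1) = P ⊗ₜ[k] P ∧
    (P ⊗ₜ[k] 1) * Coalgebra.comul (R := k) P = P ⊗ₜ[k] P)

variable (k : Type) [Field k]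

inductive Rel : FreeAlgebra k Bool → FreeAlgebra k Bool → Prop
  | tt : Rel (FreeAlgebra.ι k true * FreeAlgebra.ι k true) (FreeAlgebra.ι k true)
  | xx : Rel (FreeAlgebra.ι k false * FreeAlgebra.ι k false) 0
  | tx : Rel (FreeAlgebra.ι k true * FreeAlgebra.ι k false)
      (FreeAlgebra.ι k false * FreeAlgebra.ι k true + FreeAlgebra.ι k false)

def H : Type := RingQuot (Rel k)

noncomputable instance : Ring (H k) := inferInstanceAs (Ring (RingQuot (Rel k)))
noncomputable instance : Algebra k (H k) := inferInstanceAs (Algebra k (RingQuot (Rel k)))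

noncomputable def mk : FreeAlgebra k Bool →ₐ[k] H k := RingQuot.mkAlgHom k (Rel k)
noncomputable def t : H k := mk k (FreeAlgebra.ι k true)
noncomputable def x : H k := mk k (FreeAlgebra.ι k false)

lemma mk_rel {a b} (h : Rel k a b) : mk k a = mk k b := RingQuot.mkAlgHom_rel k h
lemma tt : t k * t k = t k := by simpa [t] using mk_rel k Rel.tt
lemma xx : x k * x k = 0 := by simpa [x] using mk_rel k Rel.xx
lemma tx : t k * x k = x k * t k + x k := by simpa [t, x] using mk_rel k Rel.tx

variable {k}

noncomputable def lift {B : Type} [Semiring B] [Algebra k B] (T X : B) (h1 : T * T = T)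
    (h2 : X * X = 0) (h3 : T * X = X * T + X) : H k →ₐ[k] B :=
  RingQuot.liftAlgHom k ⟨FreeAlgebra.lift k (fun b => bif b then T else X), by
    rintro a b (_ | _ | _) <;> simp [h1, h2, h3]⟩

lemma lift_t {B : Type} [Semiring B] [Algebra k B] (T X : B) (h1 h2 h3) :
    lift (k := k) T X h1 h2 h3 (t k) = T := by
  have := RingQuot.liftAlgHom_mkAlgHom_apply k (s := Rel k)
    (FreeAlgebra.lift k (fun b => bif b then T else X)) (by
    rintro a b (_ | _ | _) <;> simp [h1, h2, h3]) (FreeAlgebra.ι k true)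
  exact this.trans (by simp)

lemma lift_x {B : Type} [Semiring B] [Algebra k B] (T X : B) (h1 h2 h3) :
    lift (k := k) T X h1 h2 h3 (x k) = X := by
  have := RingQuot.liftAlgHom_mkAlgHom_apply k (s := Rel k)
    (FreeAlgebra.lift k (fun b => bif b then T else X)) (by
    rintro a b (_ | _ | _) <;> simp [h1, h2, h3]) (FreeAlgebra.ι k false)
  exact this.trans (by simp)

lemma ind {p : H k → Prop} (h0 : ∀ r, p (algebraMap k _ r)) (ht : p (t k)) (hx : p (x k))
    (hm : ∀ a b, p a → p b → p (a * b)) (ha : ∀ a b, p a → p b → p (a + b)) (a : H k) : p a := by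
  obtain ⟨a, rfl⟩ : ∃ b, mk k b = a := RingQuot.mkAlgHom_surjective k (Rel k) a
  induction a using FreeAlgebra.induction with
  | grade0 r => simpa using h0 r
  | grade1 b => cases b; exacts [hx, ht]
  | mul a b h1 h2 => rw [map_mul]; exact hm _ _ h1 h2
  | add a b h1 h2 => rw [map_add]; exact ha _ _ h1 h2

lemma hom_ext {B : Type} [Semiring B] [Algebra k B] {f g : H k →ₐ[k] B} (h1 : f (t k) = g (t k))
    (h2 : f (x k) = g (x k)) : f = g := by
  ext a
  induction a using ind with
  | h0 r => simp
  | ht => exact h1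
  | hx => exact h2
  | hm a b ha hb => simp [ha, hb]
  | ha a b ha hb => simp [ha, hb]

instance : Module.Finite k (H k) := by
  classical
  set W := Submodule.span k ({1, t k, x k, x k * t k} : Set (H k)) with hW
  have m1 : (1 : H k) ∈ W := Submodule.subset_span (by simp)
  have m2 : t k ∈ W := Submodule.subset_span (by simp)
  have m3 : x k ∈ W := Submodule.subset_span (by simp)
  have m4 : x k * t k ∈ W := Submodule.subset_span (by simp)
  have gen : ∀ a : H k, a ∈ W → a * t k ∈ W → a * x k ∈ W → a * (x k * t k) ∈ W →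
      ∀ w ∈ W, a * w ∈ W := by
    intro a h1 h2 h3 h4 w hw
    induction hw using Submodule.span_induction with
    | mem w hw =>
      rcases hw with rfl | rfl | rfl | rfl
      · simpa using h1
      exacts [h2, h3, h4]
    | zero => simp
    | add u v _ _ hu hv => rw [mul_add]; exact add_mem hu hv
    | smul r u _ hu => rw [mul_smul_comm]; exact W.smul_mem r hu
  have key : ∀ a : H k, ∀ w ∈ W, a * w ∈ W := by
    intro a
    induction a using ind with
    | h0 r => intro w hw; rw [← Algebra.smul_def]; exact W.smul_mem r hw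
    | ht =>
      refine gen _ m2 (by rwa [tt]) (by rw [tx]; exact add_mem m4 m3) ?_
      rw [← mul_assoc, tx, add_mul, mul_assoc, tt]; exact add_mem m4 m4
    | hx => exact gen _ m3 m4 (by rw [xx]; simp) (by rw [← mul_assoc, xx]; simp)
    | hm a b ha hb => intro w hw; rw [mul_assoc]; exact ha _ (hb w hw)
    | ha a b ha hb => intro w hw; rw [add_mul]; exact add_mem (ha w hw) (hb w hw)
  refine ⟨⟨{1, t k, x k, x k * t k}, ?_⟩⟩
  rw [eq_top_iff]
  intro a _
  simpa [hW] using key a 1 m1

variable [CharP k 2]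

lemma two {M : Type} [AddCommGroup M] [Module k M] (m : M) : m + m = 0 := by
  rw [← two_smul k m, show (2 : k) = 0 from CharP.cast_eq_zero k 2, zero_smul]

noncomputable def Δ : H k →ₐ[k] H k ⊗[k] H k :=
  lift (t k ⊗ₜ 1 + 1 ⊗ₜ t k) (x k ⊗ₜ 1 + 1 ⊗ₜ x k)
    (by
      simp only [add_mul, mul_add, Algebra.TensorProduct.tmul_mul_tmul, tt, mul_one, one_mul]
      have := two (k := k) (t k ⊗ₜ[k] t k)
      linear_combination (norm := abel_nf) this)
    (by
      simp only [add_mul, mul_add, Algebra.TensorProduct.tmul_mul_tmul, xx, mul_one, one_mul,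
        zero_tmul, tmul_zero, zero_add, add_zero]
      exact two (k := k) _)
    (by
      simp only [add_mul, mul_add, Algebra.TensorProduct.tmul_mul_tmul, tx, mul_one, one_mul,
        add_tmul, tmul_add]
      abel)

noncomputable def ε : H k →ₐ[k] k := lift 0 0 (by simp) (by simp) (by simp)

lemma Δt : Δ (t k) = t k ⊗ₜ 1 + 1 ⊗ₜ t k := lift_t _ _ _ _ _
lemma Δx : Δ (x k) = x k ⊗ₜ 1 + 1 ⊗ₜ x k := lift_x _ _ _ _ _
omit [CharP k 2] in
lemma εt : ε (t k) = 0 := lift_t _ _ _ _ _
omit [CharP k 2] in
lemma εx : ε (x k) = 0 := lift_x _ _ _ _ _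

noncomputable instance : Bialgebra k (H k) := Bialgebra.ofAlgHom Δ ε
  (by apply hom_ext <;>
      simp [Δt, Δx, add_tmul, tmul_add, Algebra.TensorProduct.one_def, add_assoc])
  (by apply hom_ext <;> simp [Δt, Δx, εt, εx])
  (by apply hom_ext <;> simp [Δt, Δx, εt, εx])

noncomputable def Sop : H k →ₐ[k] (H k)ᵐᵒᵖ :=
  lift (MulOpposite.op (t k)) (MulOpposite.op (x k))
    (by rw [← MulOpposite.op_mul, tt]) (by rw [← MulOpposite.op_mul, xx]; rfl)
    (by rw [← MulOpposite.op_mul, ← MulOpposite.op_mul, ← MulOpposite.op_add, tx, add_assoc,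
          two (k := k), add_zero])

noncomputable def S : H k →ₗ[k] H k :=
  (MulOpposite.opLinearEquiv k).symm.toLinearMap ∘ₗ Sop.toLinearMap

lemma S_mul (a b : H k) : S (a * b) = S b * S a := by simp [S]
lemma S_one : S (1 : H k) = 1 := by simp [S]
lemma St : S (t k) = t k := by
  have : Sop (t k) = _ := lift_t _ _ _ _ _
  simp [S, this]
lemma Sx : S (x k) = x k := by
  have : Sop (x k) = _ := lift_x _ _ _ _ _
  simp [S, this]

lemma anti1 (a : H k) : LinearMap.mul' k (H k) (S.rTensor _ (Δ a)) = algebraMap k _ (ε a) := by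
  have h1 : ∀ (u v : H k) (z : H k ⊗[k] H k), LinearMap.mul' k (H k) (S.rTensor _ (z * u ⊗ₜ v)) =
      S u * LinearMap.mul' k (H k) (S.rTensor _ z) * v := by
    intro u v z
    induction z using TensorProduct.induction_on with
    | zero => simp
    | tmul a b => simp [S_mul, mul_assoc]
    | add a b ha hb => simp [add_mul, mul_add, ha, hb]
  have h2 : ∀ (z w : H k ⊗[k] H k) (r : k),
      LinearMap.mul' k (H k) (S.rTensor _ z) = algebraMap k _ r →
      LinearMap.mul' k (H k) (S.rTensor _ (z * w)) =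
        r • LinearMap.mul' k (H k) (S.rTensor _ w) := by
    intro z w r h
    induction w using TensorProduct.induction_on with
    | zero => simp
    | tmul a b => rw [h1, h]; simp [Algebra.algebraMap_eq_smul_one]
    | add a b ha hb => simp [mul_add, ha, hb]
  induction a using ind with
  | h0 r => simp [Algebra.algebraMap_eq_smul_one, Algebra.TensorProduct.one_def, S_one]
  | ht => simp [Δt, εt, St, S_one, two (k := k)]
  | hx => simp [Δx, εx, Sx, S_one, two (k := k)]
  | hm a b ha hb => rw [map_mul, h2 _ _ _ ha, hb, map_mul, map_mul, Algebra.smul_def]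
  | ha a b ha hb => simp [ha, hb]

lemma anti2 (a : H k) : LinearMap.mul' k (H k) (S.lTensor _ (Δ a)) = algebraMap k _ (ε a) := by
  have h1 : ∀ (u v : H k) (z : H k ⊗[k] H k), LinearMap.mul' k (H k) (S.lTensor _ (u ⊗ₜ v * z)) =
      u * LinearMap.mul' k (H k) (S.lTensor _ z) * S v := by
    intro u v z
    induction z using TensorProduct.induction_on with
    | zero => simp
    | tmul a b => simp [S_mul, mul_assoc]
    | add a b ha hb => simp [add_mul, mul_add, ha, hb]
  have h2 : ∀ (z w : H k ⊗[k] H k) (r : k),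
      LinearMap.mul' k (H k) (S.lTensor _ z) = algebraMap k _ r →
      LinearMap.mul' k (H k) (S.lTensor _ (w * z)) =
        r • LinearMap.mul' k (H k) (S.lTensor _ w) := by
    intro z w r h
    induction w using TensorProduct.induction_on with
    | zero => simp
    | tmul a b => rw [h1, h]; simp [Algebra.algebraMap_eq_smul_one]
    | add a b ha hb => simp [add_mul, ha, hb]
  induction a using ind with
  | h0 r => simp [Algebra.algebraMap_eq_smul_one, Algebra.TensorProduct.one_def, S_one]
  | ht => simp [Δt, εt, St, S_one, two (k := k)]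
  | hx => simp [Δx, εx, Sx, S_one, two (k := k)]
  | hm a b ha hb =>
    rw [map_mul, h2 _ _ _ hb, ha, map_mul, map_mul, Algebra.smul_def, Algebra.commutes]
  | ha a b ha hb => simp [ha, hb]

noncomputable instance : HopfAlgebra k (H k) where
  antipode := S
  mul_antipode_rTensor_comul := LinearMap.ext anti1
  mul_antipode_lTensor_comul := LinearMap.ext anti2

lemma good (c : k) : TwoSided k (1 + (t k + c • x k)) := by
  obtain ⟨u, hu⟩ : ∃ u, u = t k + c • x k := ⟨_, rfl⟩
  rw [← hu]
  have uu : u * u = u := by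
    simp only [hu, add_mul, mul_add, smul_mul_assoc, mul_smul_comm, tt, xx, tx, smul_zero,
      add_zero, smul_add]
    have := two (k := k) (c • (x k * t k))
    linear_combination (norm := abel_nf) this
  have Pu : (1 + u) * u = 0 := by rw [add_mul, one_mul, uu, two (k := k)]
  have uP : u * (1 + u) = 0 := by rw [mul_add, mul_one, uu, two (k := k)]
  have hΔ : Coalgebra.comul (R := k) (1 + u) = (1 + u) ⊗ₜ[k] 1 + 1 ⊗ₜ[k] u := by
    show Δ (1 + u) = _
    simp only [hu, map_add, map_one, map_smul, Δt, Δx, add_tmul, tmul_add, smul_add,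
      Algebra.TensorProduct.one_def, smul_tmul', tmul_smul]
    abel
  have hΔ' : Coalgebra.comul (R := k) (1 + u) = 1 ⊗ₜ[k] (1 + u) + u ⊗ₜ[k] 1 := by
    rw [hΔ, add_tmul, tmul_add]; abel
  refine ⟨fun h => ?_, by rw [mul_add, mul_one, Pu, add_zero], ⟨?_, ?_⟩, ?_, ?_⟩
  · have := congrArg ε h
    simp [hu, εt, εx] at this
  · rw [hΔ, add_mul]; simp [uP]
  · rw [hΔ, mul_add]; simp [Pu]
  · rw [hΔ', add_mul]; simp [uP]
  · rw [hΔ', mul_add]; simp [Pu]

omit [CharP k 2] in
lemma x_ne : x k ≠ 0 := by
  intro h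
  have := lift_x (k := k) (!![1, 0; 0, 0] : Matrix (Fin 2) (Fin 2) k) !![0, 1; 0, 0]
    (by ext i j; fin_cases i <;> fin_cases j <;> simp [Matrix.mul_apply, Fin.sum_univ_two])
    (by ext i j; fin_cases i <;> fin_cases j <;> simp [Matrix.mul_apply, Fin.sum_univ_two])
    (by ext i j; fin_cases i <;> fin_cases j <;> simp [Matrix.mul_apply, Fin.sum_univ_two])
  rw [h, map_zero] at this
  have := congrFun (congrFun this 0) 1
  simp at this

theorem result : ∃ (k : Type) (_ : Field k) (A : Type) (_ : Ring A) (_ : HopfAlgebra k A),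
    Module.Finite k A ∧ {P : A | TwoSided k P}.Infinite := by
  refine ⟨AlgebraicClosure (ZMod 2), inferInstance, H (AlgebraicClosure (ZMod 2)), inferInstance, inferInstance,
    inferInstance, ?_⟩
  refine Set.infinite_of_injective_forall_mem
    (f := fun c : AlgebraicClosure (ZMod 2) => 1 + (t _ + c • x _)) ?_ good
  intro c d h
  simp only [add_right_inj] at h
  exact smul_left_injective _ x_ne h

end Pool.Agent.Results.MP_2a0e18_al.Exists
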